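import Pool.Agent.J6H68.Nut.Stm

/-!
# Module PHI: nonsingularity of `B = S² - 2 E + 2 J`
-/

set_option autoImplicit false

namespace Pool.Agent.J6H57.Nut

open Finset Pool.Agent.J6H68.Nut

theorem sq2 : ∀ x : ZMod 2, x ^ 2 = x := by decide

theorem st_phi : Pool.Agent.J6H68.Nut.StPhi := by
  intro V _ _ S E ρ z u hS hSs hEs hcard hρ hrow hK hPhi y hy
  obtain ⟨hu, hN, h8⟩ := hPhi
  obtain ⟨hker, hz⟩ := hK
  refine Pool.Agent.TH417.Nut.real_zero (fun i j => S i j ^ 2 - 2 * E i j + 2) ?_ y hy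
  intro v hv
  obtain ⟨B, hB⟩ : ∃ B : V → V → ℤ, B = fun i j => S i j ^ 2 - 2 * E i j + 2 := ⟨_, rfl⟩
  have hBe : ∀ i j, S i j ^ 2 - 2 * E i j + 2 = B i j := fun i j => by rw [hB]
  have hBs : ∀ i j, B i j = B j i := by
    intro i j
    rw [← hBe, ← hBe, hSs i j, hEs i j]
  simp only [hBe] at hv hrow
  have h20 : (2 : ZMod 2) = 0 := rfl
  -- the kernel modulo 2
  have hmod : ∀ i, ∑ j, (S i j : ZMod 2) * (v j : ZMod 2) = 0 := by
    intro i
    have h := congrArg (Int.cast : ℤ → ZMod 2) (hv i)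
    rw [Int.cast_sum, Int.cast_zero] at h
    rw [← h]
    refine sum_congr rfl fun j _ => ?_
    rw [← hBe]
    push_cast
    rw [sq2, h20]
    ring
  -- the sum
  have hsum : ∑ j, v j = 0 := by
    have h1 : ∑ i, ∑ j, B i j * v j = 0 := sum_eq_zero fun i _ => hv i
    rw [sum_comm] at h1
    have h2 : ∑ j, (ρ : ℤ) * v j = 0 := by
      rw [← h1]
      refine sum_congr rfl fun j _ => ?_
      rw [← sum_mul]
      congr 1
      rw [← hrow j]
      exact sum_congr rfl fun i _ => hBs j i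
    rw [← mul_sum] at h2
    rcases mul_eq_zero.1 h2 with h3 | h3
    · have : (ρ : ℤ) ≠ 0 := by exact_mod_cast hρ.ne'
      exact absurd h3 this
    · exact h3
  have hsum2 : ∑ j, (v j : ZMod 2) = 0 := by
    have h := congrArg (Int.cast : ℤ → ZMod 2) hsum
    rwa [Int.cast_sum, Int.cast_zero] at h
  have hc : ((Fintype.card V : ℕ) : ZMod 2) = 1 := by
    have : Fintype.card V = 2 * (Fintype.card V / 2) + 1 := by omega
    rw [this]
    push_cast
    rw [h20]
    ring
  have hcs : ∑ _j : V, (1 : ZMod 2) = 1 := by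
    rw [sum_const, card_univ, nsmul_eq_mul, mul_one, hc]
  rcases hker (fun j => (v j : ZMod 2)) hmod with h | h | h | h
  · intro x
    have h1 := congrFun h x
    exact (ZMod.intCast_zmod_eq_zero_iff_dvd (v x) 2).1 h1
  · exfalso
    have h1 : ∑ j, (v j : ZMod 2) = ∑ _j : V, (1 : ZMod 2) :=
      sum_congr rfl fun j _ => congrFun h j
    rw [hsum2, hcs] at h1
    exact absurd h1 (by decide)
  · exfalso
    have h1 : ∀ i, ∃ w : ℤ, v i = u i + 2 * w := by
      intro i
      have h2 : ((v i - u i : ℤ) : ZMod 2) = 0 := by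
        rw [Int.cast_sub, hu i, ← congrFun h i, sub_self]
      obtain ⟨w, hw⟩ := (ZMod.intCast_zmod_eq_zero_iff_dvd (v i - u i) 2).1 h2
      refine ⟨w, ?_⟩
      push_cast at hw
      linarith
    choose w hw using h1
    have hus : (2 : ℤ) ∣ ∑ i, u i := by
      apply (ZMod.intCast_zmod_eq_zero_iff_dvd (∑ i, u i) 2).1
      rw [Int.cast_sum, ← hz]
      exact sum_congr rfl fun i _ => hu i
    obtain ⟨s, hs⟩ := hus
    have hBu : ∀ i, ∑ j, B i j * u j = ∑ j, (S i j ^ 2 - 2 * E i j) * u j + 2 * ∑ j, u j := by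
      intro i
      rw [mul_sum, ← sum_add_distrib]
      refine sum_congr rfl fun j _ => ?_
      rw [← hBe]
      ring
    have hBv : ∀ i, ∑ j, B i j * u j + 2 * ∑ j, B i j * w j = 0 := by
      intro i
      rw [← hv i, mul_sum, ← sum_add_distrib]
      refine sum_congr rfl fun j _ => ?_
      rw [hw j]
      ring
    have hBw : ∀ i, (2 : ℤ) ∣ ∑ j, B i j * w j := by
      intro i
      have h2 := hBv i
      have h3 := hBu i
      obtain ⟨t, ht⟩ := hN i
      rw [ht, hs] at h3
      refine ⟨-(t + s), ?_⟩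
      linarith
    have hsw : ∑ i, u i * ∑ j, B i j * w j = ∑ i, w i * ∑ j, B i j * u j := by
      simp only [mul_sum]
      rw [sum_comm]
      refine sum_congr rfl fun j _ => sum_congr rfl fun i _ => ?_
      rw [hBs i j]
      ring
    have hA : ∑ i, u i * ∑ j, B i j * u j = 4 * ∑ i, w i * ∑ j, B i j * w j := by
      have e1 : ∑ i, u i * ∑ j, B i j * u j = -2 * ∑ i, u i * ∑ j, B i j * w j := by
        rw [mul_sum]
        refine sum_congr rfl fun i _ => ?_
        have h2 := hBv i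
        have h3 : ∑ j, B i j * u j = -2 * ∑ j, B i j * w j := by linarith
        rw [h3]
        ring
      have e2 : ∑ i, w i * ∑ j, B i j * u j = -2 * ∑ i, w i * ∑ j, B i j * w j := by
        rw [mul_sum]
        refine sum_congr rfl fun i _ => ?_
        have h2 := hBv i
        have h3 : ∑ j, B i j * u j = -2 * ∑ j, B i j * w j := by linarith
        rw [h3]
        ring
      rw [e1, hsw, e2]
      ring
    have hC : (2 : ℤ) ∣ ∑ i, w i * ∑ j, B i j * w j :=
      dvd_sum fun i _ => (hBw i).mul_left _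
    have hD : ∑ i, u i * ∑ j, B i j * u j =
        ∑ i, u i * ∑ j, (S i j ^ 2 - 2 * E i j) * u j + 2 * (∑ j, u j) * ∑ j, u j := by
      rw [mul_sum, ← sum_add_distrib]
      refine sum_congr rfl fun i _ => ?_
      rw [hBu i]
      ring
    obtain ⟨c, hc'⟩ := hC
    obtain ⟨d, hd⟩ := h8
    rw [hA, hc', hs] at hD
    have h9 : 2 * (2 * s) * (2 * s) = 8 * (s * s) := by ring
    rw [h9] at hD
    omega
  · exfalso
    have h1 : ∑ j, (v j : ZMod 2) = ∑ j, z j + ∑ _j : V, (1 : ZMod 2) := by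
      rw [← sum_add_distrib]
      exact sum_congr rfl fun j _ => congrFun h j
    rw [hsum2, hcs, hz, zero_add] at h1
    exact absurd h1 (by decide)

end Pool.Agent.J6H57.Nut
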